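import Pool.Agent.Helper7.CP.Top

/-!
The reduction to fibres of numerical dimension zero.
-/

set_option autoImplicit false
set_option linter.unusedSectionVars false
set_option linter.overlappingInstances false

open FF Module Pool.Agent.W602.GT Pool.Agent.Y172 Pool.Agent.R887 Pool.Agent.N110
open Pool.Agent.NH31

namespace Pool.Agent.Helper7.CP

section

variable {K : Type} [Field K] [Algebra ℂ K] {N n : ℕ} {y : Fin (N + 1) → K}

/-- the functions `g i / g 0` of a linear system below `D` of greatest dimension generate the field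
of the base -/
theorem rebase (hy : NormalModel y) {D P0 A : Place ℂ K → ℚ} {t m m2 : ℕ}
    {F : IntermediateField ℂ K} {u : Fin t → K} (h : Base y D t F P0 m u)
    (hmax : ∀ A, FinSup y A → PsD y (D - A) → ∀ k, IitakaGe y A k → k ≤ t)
    (hP0 : FinSup y P0) (hA : FinSup y A) (hm2 : 1 ≤ m2)
    {g : Fin (t + 1) → K} (hg : ∀ i, Fn y (m2 • A) (g i)) (hg0 : g 0 ≠ 0)
    (hind : AlgebraicIndependent ℂ (fun i : Fin t => g i.succ / g 0)) (hps : PsD y (D - A)) :
    Base y D t F (polD (fun i => g i / g 0) m2) m2 (fun i => g i.succ / g 0) ∧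
      (∀ P, IsPrimeDivisor y P →
        m2 * polD (fun i => g i / g 0) m2 P ≤ m2 * A P + (P.ord (g 0) : ℚ)) := by
  obtain ⟨h1, h2, h3, h4⟩ := normalize hy hm2 hg hg0 hind hps
  have hcl : Closed F := fun x hx => h.closed hx
  have hv : ∀ i : Fin t, g i.succ / g 0 ∈ F := fun i =>
    h.max A hA hps _ ⟨m2, g i.succ, g 0, hm2, hg _, hg 0, hg0, rfl⟩
  have hF : F = acl ℂ (Set.range fun i : Fin t => g i.succ / g 0) := by
    apply le_antisymm
    · rw [h.fld]
      refine acl_le (acl_closed _) ?_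
      rintro _ ⟨i, rfl⟩
      show u i ∈ acl ℂ _
      rw [mem_acl]
      by_contra hcon
      have h5 := join_sections (A' := P0) hm2 hg hg0 hind
        (x := u i) ⟨m, u i, 1, h.pos, h.sec i, h.one m, one_ne_zero, by rw [div_one]⟩ hcon
      have h6 := hmax _ ((hA.union hP0).subset (by
        rintro P ⟨hP, hne⟩
        by_contra hcon'
        rw [Set.mem_union] at hcon'
        push Not at hcon'
        have e1 : A P = 0 := by
          by_contra h3
          exact hcon'.1 ⟨hP, h3⟩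
        have e2 : P0 P = 0 := by
          by_contra h3
          exact hcon'.2 ⟨hP, h3⟩
        exact hne (by simp [e1, e2]))) (mean_psef hps h.psd) _ h5
      omega
    · refine acl_le hcl ?_
      rintro _ ⟨i, rfl⟩
      exact hv i
  refine ⟨⟨h1, hm2, fun i => h2 i.succ, h4, hind, hF, fun P hP => ?_, h.max⟩, h3⟩
  obtain ⟨i, hi⟩ := exists_polD (fun i => g i / g 0) hm2 P
  have hm' : (0 : ℚ) < m2 := by exact_mod_cast hm2
  have hgi : ∀ i, g i ≠ 0 := by
    intro i
    refine Fin.cases hg0 (fun i => ?_) i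
    intro h2
    have h4 := hind.ne_zero i
    rw [h2, zero_div] at h4
    exact h4 rfl
  have h5 : P.ord (g i / g 0) = 0 := by
    refine Fin.cases ?_ (fun i => ?_) i
    · rw [div_self hg0, P.ord_one]
    · exact hP _ (hv i) (div_ne_zero (hgi _) hg0)
  simp only [h5, Int.cast_zero, neg_zero] at hi
  exact (mul_eq_zero.1 hi).resolve_left hm'.ne'

/-- `f` is a section of `D` on the generic fibre -/
def Hor (y : Fin (N + 1) → K) (F : IntermediateField ℂ K) (D : Place ℂ K → ℚ) (f : K) : Prop :=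
  ∀ P, IsPrimeDivisor y P → Horizontal F P → f = 0 ∨ 0 ≤ D P + (P.ord f : ℚ)

theorem Hor.mono {F : IntermediateField ℂ K} {D D' : Place ℂ K → ℚ} {f : K} (h : Hor y F D f)
    (hle : ∀ P, IsPrimeDivisor y P → Horizontal F P → D P ≤ D' P) : Hor y F D' f := by
  intro P hP hh
  refine (h P hP hh).imp_right fun h1 => ?_
  have := hle P hP hh
  linarith

theorem Hor.mul {F : IntermediateField ℂ K} {D D' : Place ℂ K → ℚ} {f f' : K} (h : Hor y F D f)
    (h' : Hor y F D' f') : Hor y F (D + D') (f * f') := by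
  intro P hP hh
  by_cases hf : f = 0
  · left
    rw [hf, zero_mul]
  by_cases hf' : f' = 0
  · left
    rw [hf', mul_zero]
  right
  have h1 := (h P hP hh).resolve_left hf
  have h2 := (h' P hP hh).resolve_left hf'
  rw [P.ord_mul hf hf', Pi.add_apply]
  push_cast
  linarith

theorem Hor.pow {F : IntermediateField ℂ K} {D : Place ℂ K → ℚ} {f : K} (h : Hor y F D f)
    (k : ℕ) : Hor y F (k • D) (f ^ k) := by
  intro P hP hh
  by_cases hf : f = 0
  · rcases Nat.eq_zero_or_pos k with rfl | hk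
    · right
      simp [P.ord_one]
    · left
      rw [hf, zero_pow hk.ne']
  right
  have h1 := (h P hP hh).resolve_left hf
  rw [P.ord_pow, smul_ap]
  push_cast
  have := mul_nonneg (show (0 : ℚ) ≤ k from Nat.cast_nonneg _) h1
  linarith

theorem Fn.hor {F : IntermediateField ℂ K} {D : Place ℂ K → ℚ} {f : K} (h : Fn y D f) :
    Hor y F D f := fun P hP _ => (h P hP).imp_right fun h1 => by linarith

/-- stabilisation of the spaces of the sections on the generic fibre -/
theorem exists_stable {D H : Place ℂ K → ℚ} {F : IntermediateField ℂ K} (hH : Effective y H)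
    {m1 : ℕ} (hm1 : 1 ≤ m1) {s0 : K} (hs0 : s0 ≠ 0) (hs : Hor y F (m1 • D) s0)
    {B : ℕ} (hB : ∀ m, 1 ≤ m → ∀ (s : ℕ) (e : Fin s → K), LinearIndependent F e →
      (∀ i, Hor y F (m • D + H) (e i)) → s ≤ B) :
    ∃ (j0 s : ℕ) (e : Fin s → K), 1 ≤ j0 ∧ LinearIndependent F e ∧
      ∀ j, j0 ≤ j → ∀ f, Hor y F ((j * m1) • D + H) f →
        ∃ c : Fin s → F, f = s0 ^ (j - j0) * ∑ i, (c i : K) * e i := by
  classical
  obtain ⟨p, hp⟩ : ∃ p : ℕ → Prop, p = fun s => ∃ j, 1 ≤ j ∧ ∃ e : Fin s → K,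
      LinearIndependent F e ∧ ∀ i, Hor y F ((j * m1) • D + H) (e i) := ⟨_, rfl⟩
  have hpB : ∀ s, p s → s ≤ B := by
    intro s hs
    rw [hp] at hs
    obtain ⟨j, hj, e, he, h1⟩ := hs
    exact hB (j * m1) (Nat.mul_pos hj hm1) s e he h1
  have hp0 : p 0 := by
    rw [hp]
    exact ⟨1, le_rfl, fun _ => 0, linearIndependent_empty_type, fun i => i.elim0⟩
  obtain ⟨s, hs'⟩ : ∃ s, s = Nat.findGreatest p B := ⟨_, rfl⟩
  have h1 : p s := by
    rw [hs']
    exact Nat.findGreatest_spec (Nat.zero_le B) hp0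
  have hmax : ∀ k, p k → k ≤ s := by
    intro k hk
    rw [hs']
    exact Nat.le_findGreatest (hpB k hk) hk
  have h1' := h1
  rw [hp] at h1'
  obtain ⟨j0, hj0, e, he, h2⟩ := h1'
  refine ⟨j0, s, e, hj0, he, fun j hj f hf => ?_⟩
  have hs0' : s0 ^ (j - j0) ≠ 0 := pow_ne_zero _ hs0
  have he' : LinearIndependent F (fun i => s0 ^ (j - j0) * e i) := by
    have h3 := he.map' (LinearMap.mulLeft F (s0 ^ (j - j0))) (by
      rw [LinearMap.ker_eq_bot]
      intro a b hab
      exact mul_left_cancel₀ hs0' hab)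
    exact h3
  have hHn : ∀ P, IsPrimeDivisor y P → 0 ≤ H P := hH.1
  have h4 : ∀ i, Hor y F ((j * m1) • D + H) (s0 ^ (j - j0) * e i) := by
    intro i
    refine ((hs.pow (j - j0)).mul (h2 i)).mono fun P _ _ => ?_
    simp only [Pi.add_apply, smul_ap]
    rw [Nat.cast_sub hj]
    push_cast
    linarith
  by_contra hcon
  have h5 : LinearIndependent F (Fin.snoc (fun i => s0 ^ (j - j0) * e i) f : Fin (s + 1) → K) := by
    rw [linearIndependent_finSnoc]
    refine ⟨he', fun h6 => hcon ?_⟩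
    rw [Submodule.mem_span_range_iff_exists_fun] at h6
    obtain ⟨c, hc⟩ := h6
    refine ⟨c, ?_⟩
    rw [← hc, Finset.mul_sum]
    refine Finset.sum_congr rfl fun i _ => ?_
    show (c i : K) * (s0 ^ (j - j0) * e i) = _
    ring
  have h6 : p (s + 1) := by
    rw [hp]
    refine ⟨j, le_trans hj0 hj, _, h5, fun i => ?_⟩
    refine Fin.lastCases ?_ (fun i => ?_) i
    · rw [Fin.snoc_last]
      exact hf
    · rw [Fin.snoc_castSucc]
      exact h4 i
  have := hmax _ h6
  omega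

/-- the bound for the coefficients of a linear combination -/
def NormBound (y : Fin (N + 1) → K) (F : IntermediateField ℂ K) : Prop :=
  ∀ (s : ℕ) (e : Fin s → K), LinearIndependent F e → ∃ C : Place ℂ K → ℕ,
    {P | IsPrimeDivisor y P ∧ ¬ Horizontal F P ∧ C P ≠ 0}.Finite ∧
    ∀ P, IsPrimeDivisor y P → ¬ Horizontal F P → ∀ c : Fin s → F, ∀ i, c i ≠ 0 →
      P.ord (∑ j, (c j : K) * e j) - C P ≤ P.ord (c i : K)

/-- **Fibres of numerical dimension zero.** -/
theorem kappa_of_fibre {D P1 H : Place ℂ K → ℚ} {t m : ℕ}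
    (hy : NormalModel y) {F : IntermediateField ℂ K} {u : Fin t → K} (h : Base y D t F P1 m u)
    (hN : NormBound y F) (hH : Effective y H) {m2 : ℕ} (hm2 : 1 ≤ m2)
    (hnak : ∀ j, 1 ≤ j → ∃ f, f ≠ 0 ∧ Fn y ((j * m2) • (D - P1) + H) f)
    {m1 : ℕ} (hm1 : 1 ≤ m1) {s0 : K} (hs0 : s0 ≠ 0) (hs : Hor y F (m1 • D) s0)
    {B : ℕ} (hB : ∀ m, 1 ≤ m → ∀ (s : ℕ) (e : Fin s → K), LinearIndependent F e →
      (∀ i, Hor y F (m • D + H) (e i)) → s ≤ B) : IitakaGe y D t := by
  classical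
  obtain ⟨j0, s, e, hj0, he, hstab⟩ := exists_stable hH hm1 hs0 hs hB
  obtain ⟨C, hCf, hC⟩ := hN s e he
  have hP1 : ∀ P, IsPrimeDivisor y P → 0 ≤ P1 P := h.eff.1
  -- the divisor of the poles
  obtain ⟨G, hG⟩ : ∃ G : Place ℂ K → ℚ, G = fun P => if Horizontal F P then 0 else
      H P + C P + j0 * |((P.ord s0 : ℤ) : ℚ)| := ⟨_, rfl⟩
  have hGs : FinSup y G := by
    refine ((hH.2.union hCf).union (finSup_ord hy hs0)).subset ?_
    rintro P ⟨hP, hne⟩
    by_contra hcon
    rw [Set.mem_union, Set.mem_union] at hcon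
    push Not at hcon
    obtain ⟨⟨h1, h2⟩, h3⟩ := hcon
    apply hne
    rw [hG]
    show (if Horizontal F P then (0 : ℚ) else _) = 0
    split_ifs with h4
    · rfl
    · have e1 : H P = 0 := by
        by_contra h5
        exact h1 ⟨hP, h5⟩
      have e2 : C P = 0 := by
        by_contra h5
        exact h2 ⟨hP, h4, h5⟩
      have e3 : ((P.ord s0 : ℤ) : ℚ) = 0 := by
        by_contra h5
        exact h3 ⟨hP, h5⟩
      rw [e1, e2, e3]
      simp
  obtain ⟨k, τ, hτ0, hτ⟩ := h.van hGs (fun P _ h1 => by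
    rw [hG]
    show (if Horizontal F P then (0 : ℚ) else _) ≤ 0
    rw [if_pos h1])
  -- a section of a large multiple
  obtain ⟨j, hj⟩ : ∃ j : ℕ, j = k + j0 := ⟨_, rfl⟩
  have hj1 : 1 ≤ j := by omega
  obtain ⟨f, hf0, hf⟩ := hnak (j * m1) (Nat.mul_pos hj1 hm1)
  have hf' : Hor y F (((j * m2) * m1) • D + H) f := by
    intro P hP hh
    right
    have h1 := (hf P hP).resolve_left hf0
    simp only [Pi.add_apply, Pi.sub_apply, smul_ap, h.hor P hh] at h1 ⊢
    push_cast at h1 ⊢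
    linarith
  have hjj : j0 ≤ j * m2 := by nlinarith
  obtain ⟨c, hc⟩ := hstab (j * m2) hjj f hf'
  obtain ⟨i, hi⟩ : ∃ i, c i ≠ 0 := by
    by_contra hcon
    push Not at hcon
    apply hf0
    rw [hc]
    simp [hcon]
  obtain ⟨r, hr⟩ : ∃ r, j * m2 = j0 + r := ⟨j * m2 - j0, by omega⟩
  have hrs : j * m2 - j0 = r := by omega
  rw [hrs] at hc
  have hci : (c i : K) ≠ 0 := by
    intro h1
    exact hi (Subtype.ext h1)
  obtain ⟨M, hM⟩ : ∃ M, M = j * m1 * m2 := ⟨_, rfl⟩
  have hMk : k + 1 ≤ M := by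
    have h1 : 1 * 1 ≤ m1 * m2 := Nat.mul_le_mul hm1 hm2
    have h2 : j * 1 ≤ j * (m1 * m2) := Nat.mul_le_mul_left _ (by simpa using h1)
    rw [hM, mul_assoc]
    omega
  obtain ⟨l, hl⟩ : ∃ l, M = k + 1 + l := ⟨M - (k + 1), by omega⟩
  have hg0 : (c i : K) * s0 ^ (j * m2) ≠ 0 := mul_ne_zero hci (pow_ne_zero _ hs0)
  refine kappa_of_surplus h (m1 := M) (l := 1 + l) (f := (c i : K) * s0 ^ (j * m2) * τ)
    (by omega) (by omega) (mul_ne_zero hg0 hτ0) fun P hP => ?_
  rw [P.ord_mul hg0 hτ0, P.ord_mul hci (pow_ne_zero _ hs0), P.ord_pow]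
  have hτP := hτ P hP
  have hM' : (M : ℚ) = k + 1 + l := by
    rw [hl]
    push_cast
    ring
  have hM'' : (M : ℚ) = j * m1 * m2 := by
    rw [hM]
    push_cast
    ring
  by_cases hh : Horizontal F P
  · have h1 : P.ord (c i : K) = 0 := hh _ (c i).2 hci
    have h2 : P1 P = 0 := h.hor P hh
    have h3 := (hs P hP hh).resolve_left hs0
    rw [smul_ap] at h3
    have h4 : 0 ≤ ((j * m2 : ℕ) : ℚ) * (m1 * D P + (P.ord s0 : ℚ)) :=
      mul_nonneg (Nat.cast_nonneg _) h3
    have h5 : G P = 0 := by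
      rw [hG]
      show (if Horizontal F P then (0 : ℚ) else _) = 0
      rw [if_pos hh]
    rw [h1, h2, hM'']
    rw [h2, h5] at hτP
    push_cast at h4 ⊢
    nlinarith
  · have hsum : (∑ j, (c j : K) * e j) ≠ 0 := by
      intro h1
      apply hf0
      rw [hc, h1, mul_zero]
    have h1 := hC P hP hh c i hi
    have h2 := (hf P hP).resolve_left hf0
    rw [hc, P.ord_mul (pow_ne_zero _ hs0) hsum, P.ord_pow] at h2
    simp only [Pi.add_apply, Pi.sub_apply, smul_ap] at h2
    have h3 : G P = H P + C P + j0 * |((P.ord s0 : ℤ) : ℚ)| := by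
      rw [hG]
      show (if Horizontal F P then (0 : ℚ) else _) = _
      rw [if_neg hh]
    have h4 : -(j0 * |((P.ord s0 : ℤ) : ℚ)|) ≤ j0 * ((P.ord s0 : ℤ) : ℚ) := by
      have := mul_le_mul_of_nonneg_left (neg_abs_le ((P.ord s0 : ℤ) : ℚ))
        (show (0 : ℚ) ≤ j0 from Nat.cast_nonneg _)
      linarith
    have h5 : ((P.ord (∑ j, (c j : K) * e j) : ℤ) : ℚ) - C P ≤ ((P.ord (c i : K) : ℤ) : ℚ) := by
      exact_mod_cast h1
    have h6 : ((j * m2 : ℕ) : ℚ) = j0 + r := by
      rw [hr]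
      push_cast
      ring
    have h7 : ((j * m1 * m2 : ℕ) : ℚ) = M := by rw [hM]
    rw [h7] at h2
    rw [h3] at hτP
    have h8 : (1 + (l : ℚ)) = M - k := by
      rw [hM']
      ring
    push_cast at h2 h6 ⊢
    rw [h8, h6]
    linarith

end

end Pool.Agent.Helper7.CP
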