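import Pool.Agent.Helper7.CP.Fib

/-!
The normal form of the largest fibration.
-/

set_option autoImplicit false
set_option linter.unusedSectionVars false
set_option linter.overlappingInstances false

open FF Module Pool.Agent.W602.GT Pool.Agent.Y172 Pool.Agent.R887 Pool.Agent.N110
open Pool.Agent.NH31

namespace Pool.Agent.Helper7.CP

section

variable {K : Type} [Field K] [Algebra ℂ K] {N n : ℕ} {y : Fin (N + 1) → K}

/-- the divisor of the poles of the functions `v i`, divided by `m` -/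
noncomputable def polD {t : ℕ} (v : Fin (t + 1) → K) (m : ℕ) (P : Place ℂ K) : ℚ :=
  ((Finset.univ.sup' ⟨0, Finset.mem_univ _⟩ fun i : Fin (t + 1) => -(P.ord (v i)) : ℤ) : ℚ) / m

theorem le_polD {t : ℕ} (v : Fin (t + 1) → K) {m : ℕ} (hm : 1 ≤ m) (P : Place ℂ K)
    (i : Fin (t + 1)) : -((P.ord (v i) : ℤ) : ℚ) ≤ m * polD v m P := by
  have hm' : (m : ℚ) ≠ 0 := by
    have : (0 : ℚ) < m := by exact_mod_cast hm
    exact this.ne'
  rw [polD, mul_div_cancel₀ _ hm']
  have h1 := Finset.le_sup' (fun i : Fin (t + 1) => -(P.ord (v i))) (Finset.mem_univ i)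
  exact_mod_cast h1

theorem exists_polD {t : ℕ} (v : Fin (t + 1) → K) {m : ℕ} (hm : 1 ≤ m) (P : Place ℂ K) :
    ∃ i, (m : ℚ) * polD v m P = -((P.ord (v i) : ℤ) : ℚ) := by
  have hm' : (m : ℚ) ≠ 0 := by
    have : (0 : ℚ) < m := by exact_mod_cast hm
    exact this.ne'
  obtain ⟨i, -, hi⟩ := Finset.exists_mem_eq_sup' ⟨0, Finset.mem_univ _⟩
    (fun i : Fin (t + 1) => -(P.ord (v i)))
  refine ⟨i, ?_⟩
  rw [polD, mul_div_cancel₀ _ hm', hi]
  push_cast
  rfl

theorem polD_sup (hy : NormalModel y) {t : ℕ} {v : Fin (t + 1) → K} (hv : ∀ i, v i ≠ 0) {m : ℕ}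
    (hm : 1 ≤ m) : FinSup y (polD v m) := by
  refine (Set.finite_iUnion fun i => finite_ord hy (hv i)).subset ?_
  rintro P ⟨hP, hne⟩
  by_contra hcon
  apply hne
  obtain ⟨i, hi⟩ := exists_polD v hm P
  have h1 : P.ord (v i) = 0 := by
    by_contra h2
    exact hcon (Set.mem_iUnion.2 ⟨i, hP, h2⟩)
  rw [h1, Int.cast_zero, neg_zero] at hi
  have hm' : (m : ℚ) ≠ 0 := by
    have : (0 : ℚ) < m := by exact_mod_cast hm
    exact this.ne'
  exact (mul_eq_zero.1 hi).resolve_left hm'

/-- the data of the largest fibration below `D` -/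
structure Base (y : Fin (N + 1) → K) (D : Place ℂ K → ℚ) (t : ℕ) (F : IntermediateField ℂ K)
    (P0 : Place ℂ K → ℚ) (m : ℕ) (u : Fin t → K) : Prop where
  eff : Effective y P0
  pos : 1 ≤ m
  sec : ∀ i, Fn y (m • P0) (u i)
  psd : PsD y (D - P0)
  ind : AlgebraicIndependent ℂ u
  fld : F = acl ℂ (Set.range u)
  hor : ∀ P, Horizontal F P → P0 P = 0
  max : ∀ A, FinSup y A → PsD y (D - A) → ∀ x ∈ rat y A, x ∈ F

theorem Base.mem {D : Place ℂ K → ℚ} {t : ℕ} {F : IntermediateField ℂ K} {P0 : Place ℂ K → ℚ}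
    {m : ℕ} {u : Fin t → K} (h : Base y D t F P0 m u) (i : Fin t) : u i ∈ F := by
  rw [h.fld]
  exact subset_acl _ ⟨i, rfl⟩

theorem Base.closed {D : Place ℂ K → ℚ} {t : ℕ} {F : IntermediateField ℂ K} {P0 : Place ℂ K → ℚ}
    {m : ℕ} {u : Fin t → K} (h : Base y D t F P0 m u) {x : K} (hx : IsAlgebraic F x) : x ∈ F := by
  have h1 := h.fld
  subst h1
  have : Algebra.IsAlgebraic (IntermediateField.adjoin ℂ (Set.range u))
      (algebraicClosure (IntermediateField.adjoin ℂ (Set.range u)) K) := inferInstance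
  have h2 : IsAlgebraic (algebraicClosure (IntermediateField.adjoin ℂ (Set.range u)) K) x := hx
  exact mem_acl.2 (h2.restrictScalars _)

/-- the constant function and the functions `u i` -/
theorem Base.one {D : Place ℂ K → ℚ} {t : ℕ} {F : IntermediateField ℂ K} {P0 : Place ℂ K → ℚ}
    {m : ℕ} {u : Fin t → K} (h : Base y D t F P0 m u) (k : ℕ) : Fn y (k • P0) 1 := by
  refine fn_one.mono fun P hP => ?_
  rw [smul_ap]
  exact mul_nonneg (Nat.cast_nonneg _) (h.eff.1 P hP)

/-- ratios of a linear system below `D` -/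
theorem normalize (hy : NormalModel y) {D A : Place ℂ K → ℚ} {t m : ℕ} (hm : 1 ≤ m)
    {g : Fin (t + 1) → K} (hg : ∀ i, Fn y (m • A) (g i)) (hg0 : g 0 ≠ 0)
    (hind : AlgebraicIndependent ℂ (fun i : Fin t => g i.succ / g 0)) (hps : PsD y (D - A)) :
    Effective y (polD (fun i => g i / g 0) m) ∧
      (∀ i, Fn y (m • polD (fun i => g i / g 0) m) (g i / g 0)) ∧
      (∀ P, IsPrimeDivisor y P →
        m * polD (fun i => g i / g 0) m P ≤ m * A P + (P.ord (g 0) : ℚ)) ∧
      PsD y (D - polD (fun i => g i / g 0) m) := by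
  have hgi : ∀ i, g i ≠ 0 := by
    intro i
    refine Fin.cases hg0 (fun i => ?_) i
    intro h2
    have h4 := hind.ne_zero i
    rw [h2, zero_div] at h4
    exact h4 rfl
  have hv : ∀ i, g i / g 0 ≠ 0 := fun i => div_ne_zero (hgi i) hg0
  have hm' : (0 : ℚ) < m := by exact_mod_cast hm
  have h3 : ∀ P, IsPrimeDivisor y P →
      m * polD (fun i => g i / g 0) m P ≤ m * A P + (P.ord (g 0) : ℚ) := by
    intro P hP
    obtain ⟨i, hi⟩ := exists_polD (fun i => g i / g 0) hm P
    rw [hi]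
    have h1 := (hg i P hP).resolve_left (hgi i)
    rw [smul_ap] at h1
    show -((P.ord (g i / g 0) : ℤ) : ℚ) ≤ _
    rw [P.ord_div (hgi i) hg0]
    push_cast
    linarith
  refine ⟨⟨fun P _ => ?_, polD_sup hy hv hm⟩, fun i P _ => Or.inr ?_, h3, ?_⟩
  · have h1 := le_polD (fun i => g i / g 0) hm P 0
    simp only [div_self hg0] at h1
    rw [P.ord_one, Int.cast_zero, neg_zero] at h1
    exact (mul_nonneg_iff_of_pos_left hm').1 h1
  · rw [smul_ap]
    have h1 := le_polD (fun i => g i / g 0) hm P i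
    linarith
  · have h4 : PsD y (fun P => -((P.ord (g 0) : ℤ) : ℚ)) :=
      PsD.principal hg0 fun P _ => by rw [neg_neg]
    refine ((hps.smul (p := m) (q := 1) (D' := fun P => m * (D P - A P)) le_rfl
      fun P _ => ?_).add h4).smul (p := 1) (q := m) hm fun P hP => ?_
    · rw [Pi.sub_apply]
      push_cast
      linarith
    · have h5 := h3 P hP
      simp only [Pi.add_apply, Pi.sub_apply]
      push_cast
      linarith

/-- **The largest fibration.** -/
theorem exists_base (hy : NormalModel y) (hn : Algebra.trdeg ℂ K = n) {D : Place ℂ K → ℚ}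
    (hps : PsD y D) : ∃ (t : ℕ) (F : IntermediateField ℂ K) (P0 : Place ℂ K → ℚ) (m : ℕ)
      (u : Fin t → K), t ≤ n ∧ Base y D t F P0 m u := by
  obtain ⟨t, A, m, g, hA, hps', hm, hg, hg0, hind, hmax⟩ := exists_largest hn hps
  obtain ⟨h1, h2, h3, h4⟩ := normalize hy hm hg hg0 hind hps'
  have hgi : ∀ i, g i ≠ 0 := by
    intro i
    refine Fin.cases hg0 (fun i => ?_) i
    intro h2
    have h4 := hind.ne_zero i
    rw [h2, zero_div] at h4
    exact h4 rfl
  refine ⟨t, acl ℂ (Set.range fun i : Fin t => g i.succ / g 0), polD (fun i => g i / g 0) m, m,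
    fun i => g i.succ / g 0, card_le hn hind, h1, hm, fun i => h2 i.succ, h4, hind, rfl,
    fun P hP => ?_, fun A' hA' hA'' x hx => mem_acl.2 (hmax A' hA' hA'' x hx)⟩
  obtain ⟨i, hi⟩ := exists_polD (fun i => g i / g 0) hm P
  have hm' : (0 : ℚ) < m := by exact_mod_cast hm
  have h5 : P.ord (g i / g 0) = 0 := by
    refine Fin.cases ?_ (fun i => ?_) i
    · rw [div_self hg0, P.ord_one]
    · exact hP _ (subset_acl _ ⟨i, rfl⟩) (div_ne_zero (hgi _) hg0)
  simp only [h5, Int.cast_zero, neg_zero] at hi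
  exact (mul_eq_zero.1 hi).resolve_left hm'.ne'

end

end Pool.Agent.Helper7.CP
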