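import Pool.Agent.Helper7.CP.Num
import Pool.Graph.R_pool_sql_team_seeded_3dad9d7b.NH31.M3

/-!
The cone of the pseudo-effective divisors, in terms of rational functions.
-/

set_option autoImplicit false
set_option linter.unusedSectionVars false
set_option linter.overlappingInstances false

open FF Module Pool.Agent.W602.GT Pool.Agent.Y172 Pool.Agent.R887 Pool.Agent.N110
open Pool.Agent.NH31

namespace Pool.Agent.Helper7.CP

section

variable {K : Type} [Field K] [Algebra ℂ K] {N n : ℕ} {y : Fin (N + 1) → K}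

/-- the divisor `D` is pseudo-effective -/
def PsD (y : Fin (N + 1) → K) (D : Place ℂ K → ℚ) : Prop :=
  ∃ H : Place ℂ K → ℚ, Effective y H ∧ ∀ δ : ℝ, 0 < δ → ∃ m b : ℕ, 1 ≤ m ∧ (b : ℝ) ≤ δ * m ∧
    ∃ f : K, f ≠ 0 ∧ Fn y (m • D + b • H) f

theorem fn_iff_isFunctionSection {D : Place ℂ K → ℚ} {g : K} (hg : g ≠ 0) :
    IsFunctionSection y D g ↔ Fn y D g := by
  constructor
  · intro h P hP
    exact Or.inr (h.resolve_left hg P hP)
  · intro h
    exact Or.inr fun P hP => (h P hP).resolve_left hg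

theorem isFunctionSection_fn {D : Place ℂ K → ℚ} {g : K} (h : IsFunctionSection y D g) :
    Fn y D g := by
  rcases h with rfl | h
  · exact fn_zero D
  · exact fun P hP => Or.inr (h P hP)

theorem fn_isFunctionSection {D : Place ℂ K → ℚ} {g : K} (h : Fn y D g) :
    IsFunctionSection y D g := by
  by_cases hg : g = 0
  · exact Or.inl hg
  · exact (fn_iff_isFunctionSection hg).2 h

theorem eff_add {A B : Place ℂ K → ℚ} (hA : Effective y A) (hB : Effective y B) :
    Effective y (A + B) :=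
  ⟨fun P hP => add_nonneg (hA.1 P hP) (hB.1 P hP), FinSup.add hA.2 hB.2⟩

theorem eff_zero : Effective y (0 : Place ℂ K → ℚ) :=
  ⟨fun _ _ => le_rfl, Set.finite_empty.subset (by rintro P ⟨-, h⟩; exact h rfl)⟩

theorem PsD.mono {D D' : Place ℂ K → ℚ} (h : PsD y D)
    (hle : ∀ P, IsPrimeDivisor y P → D P ≤ D' P) : PsD y D' := by
  obtain ⟨H, hH, h⟩ := h
  refine ⟨H, hH, fun δ hδ => ?_⟩
  obtain ⟨m, b, hm, hb, f, hf, h1⟩ := h δ hδ
  refine ⟨m, b, hm, hb, f, hf, h1.mono fun P hP => ?_⟩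
  have h2 := mul_le_mul_of_nonneg_left (hle P hP) (show (0 : ℚ) ≤ m from Nat.cast_nonneg _)
  simp only [Pi.add_apply, smul_ap]
  linarith

theorem PsD.add {D D' : Place ℂ K → ℚ} (h : PsD y D) (h' : PsD y D') : PsD y (D + D') := by
  obtain ⟨H, hH, h⟩ := h
  obtain ⟨H', hH', h'⟩ := h'
  refine ⟨H + H', eff_add hH hH', fun δ hδ => ?_⟩
  obtain ⟨m, b, hm, hb, f, hf, h1⟩ := h (δ / 2) (by positivity)
  obtain ⟨m', b', hm', hb', f', hf', h1'⟩ := h' (δ / 2) (by positivity)
  refine ⟨m * m', b * m' + b' * m, Nat.mul_pos hm hm', ?_, f ^ m' * f' ^ m,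
    mul_ne_zero (pow_ne_zero _ hf) (pow_ne_zero _ hf'), ?_⟩
  · push_cast
    have e1 := mul_le_mul_of_nonneg_right hb (show (0 : ℝ) ≤ m' from Nat.cast_nonneg _)
    have e2 := mul_le_mul_of_nonneg_right hb' (show (0 : ℝ) ≤ m from Nat.cast_nonneg _)
    linarith
  · refine ((h1.pow m').mul (h1'.pow m)).mono fun P hP => ?_
    simp only [Pi.add_apply, smul_ap]
    have e1 := hH.1 P hP
    have e2 := hH'.1 P hP
    have e3 : (0 : ℚ) ≤ b * m' * H' P := by positivity
    have e4 : (0 : ℚ) ≤ b' * m * H P := by positivity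
    push_cast
    linarith

theorem PsD.principal {f : K} (hf : f ≠ 0) {D : Place ℂ K → ℚ}
    (h : ∀ P, IsPrimeDivisor y P → -(D P) ≤ P.ord f) : PsD y D := by
  refine ⟨0, eff_zero, fun δ hδ => ⟨1, 0, le_rfl, ?_, f, hf, fun P hP => Or.inr ?_⟩⟩
  · push_cast
    linarith
  · have := h P hP
    simpa using this

/-- multiples -/
theorem PsD.smul {D D' : Place ℂ K → ℚ} (h : PsD y D) {p q : ℕ} (hq : 1 ≤ q)
    (hle : ∀ P, IsPrimeDivisor y P → (p : ℚ) * D P ≤ q * D' P) : PsD y D' := by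
  obtain ⟨H, hH, h⟩ := h
  refine ⟨H, hH, fun δ hδ => ?_⟩
  obtain ⟨m, b, hm, hb, f, hf, h1⟩ := h (δ / (p + 1)) (by positivity)
  refine ⟨m * q, b * p, Nat.mul_pos hm hq, ?_, f ^ p, pow_ne_zero _ hf, ?_⟩
  · push_cast
    have e1 : (b : ℝ) * (p + 1) ≤ δ * m := by
      have h2 : (0 : ℝ) < p + 1 := by positivity
      calc (b : ℝ) * (p + 1) ≤ (δ / (p + 1) * m) * (p + 1) :=
            mul_le_mul_of_nonneg_right hb h2.le
        _ = δ * m := by field_simp
    have e2 : (1 : ℝ) ≤ q := by exact_mod_cast hq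
    have e3 : (0 : ℝ) ≤ b := Nat.cast_nonneg _
    have e4 : (0 : ℝ) ≤ δ * m := by positivity
    nlinarith
  · refine (h1.pow p).mono fun P hP => ?_
    have e1 := hle P hP
    have e2 := mul_le_mul_of_nonneg_left e1 (show (0 : ℚ) ≤ m from Nat.cast_nonneg _)
    simp only [Pi.add_apply, smul_ap]
    push_cast
    linarith

/-- pseudo-effective log canonical divisors -/
theorem psef_iff {x : Fin n → K} {E : Fin n → Derivation ℂ K K}
    (hE : ∀ i j, E i (x j) = if i = j then 1 else 0) (hfr : IsFrame E) {c : Place ℂ K → ℤ}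
    (hc : IsDisc y E c) {Δ : Place ℂ K → ℚ} :
    PseudoEffective y n Δ ↔ PsD y (fun P => (c P : ℚ) + Δ P) := by
  constructor
  · rintro ⟨H, hH, h⟩
    refine ⟨H, hH, fun δ hδ => ?_⟩
    obtain ⟨m, b, hm, hb, η, hη, hη0⟩ := h δ hδ
    refine ⟨m, b, hm, hb, η E, fun h0 => hη0 (pluri_zero hfr hη.1 h0), fun P hP => ?_⟩
    have h1 := (isSection_iff hc hη.1).1 hη P hP
    refine h1.imp_right fun h2 => ?_
    simp only [Pi.add_apply, smul_ap] at h2 ⊢
    linarith
  · rintro ⟨H, hH, h⟩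
    refine ⟨H, hH, fun δ hδ => ?_⟩
    obtain ⟨m, b, hm, hb, f, hf, h1⟩ := h δ hδ
    refine ⟨m, b, hm, hb, frm x m f, ?_, fun h0 => hf ?_⟩
    · rw [isSection_iff hc (frm_pluri x m f), frm_self hE]
      intro P hP
      refine (h1 P hP).imp_right fun h2 => ?_
      simp only [Pi.add_apply, smul_ap] at h2 ⊢
      linarith
    · rw [← frm_self hE m f, h0]
      rfl

/-- the Kodaira dimension -/
theorem kappaGe_iff {x : Fin n → K} {E : Fin n → Derivation ℂ K K}
    (hE : ∀ i j, E i (x j) = if i = j then 1 else 0) (hfr : IsFrame E) {c : Place ℂ K → ℤ}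
    (hc : IsDisc y E c) {Δ : Place ℂ K → ℚ} {k : ℕ} :
    KappaGe y n Δ k ↔ IitakaGe y (fun P => (c P : ℚ) + Δ P) k := by
  constructor
  · rintro ⟨m, hm, ω, E', hω, h0, hind⟩
    refine ⟨m, hm, fun i => ω i E, fun i => fn_isFunctionSection fun P hP => ?_, ?_, ?_⟩
    · refine ((isSection_iff hc (hω i).1).1 (hω i) P hP).imp_right fun h2 => ?_
      simp only [smul_ap] at h2 ⊢
      linarith
    · exact (R887.ratio_frame hfr (hω 0).1 (hω 0).1 h0).1
    · have e1 : (fun j : Fin k => ω j.succ E / ω 0 E) = fun j : Fin k => ω j.succ E' / ω 0 E' := by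
        funext j
        exact ((R887.ratio_frame hfr (hω 0).1 (hω j.succ).1 h0).2).symm
      show AlgebraicIndependent ℂ (fun j : Fin k => ω j.succ E / ω 0 E)
      rw [e1]
      exact hind
  · rintro ⟨m, hm, g, hg, hg0, hind⟩
    refine ⟨m, hm, fun i => frm x m (g i), E, fun i => ?_, ?_, ?_⟩
    · rw [isSection_iff hc (frm_pluri x m _), frm_self hE]
      intro P hP
      refine (isFunctionSection_fn (hg i) P hP).imp_right fun h2 => ?_
      simp only [smul_ap] at h2 ⊢
      linarith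
    · show frm x m (g 0) E ≠ 0
      rw [frm_self hE]
      exact hg0
    · simp only [frm_self hE]
      exact hind

end

end Pool.Agent.Helper7.CP
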