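import Pool.Agent.Helper7.CP.Cone
import Pool.Graph.R_pool_sql_team_seeded_3dad9d7b.NH31.M2

/-!
The largest fibration such that the pull back of a big divisor is below a pseudo-effective divisor.
-/

set_option autoImplicit false
set_option linter.unusedSectionVars false
set_option linter.overlappingInstances false

open FF Module Pool.Agent.W602.GT Pool.Agent.Y172 Pool.Agent.R887 Pool.Agent.N110
open Pool.Agent.NH31

namespace Pool.Agent.Helper7.CP

section

variable {K : Type} [Field K] [Algebra ℂ K] {N n : ℕ} {y : Fin (N + 1) → K}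

theorem card_le (hn : Algebra.trdeg ℂ K = n) {k : ℕ} {u : Fin k → K}
    (hu : AlgebraicIndependent ℂ u) : k ≤ n := by
  have h1 := hu.lift_cardinalMk_le_trdeg
  rw [hn] at h1
  simpa using h1

/-- the mean of two divisors below `D` is below `D` -/
theorem mean_psef {D A A' : Place ℂ K → ℚ} (h : PsD y (D - A)) (h' : PsD y (D - A')) :
    PsD y (D - fun P => (A P + A' P) / 2) := by
  refine (h.add h').smul (p := 1) (q := 2) (by norm_num) fun P _ => ?_
  simp only [Pi.add_apply, Pi.sub_apply]
  push_cast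
  linarith

/-- an element which is transcendental over the ratios -/
theorem indep_snoc {k : ℕ} {u : Fin k → K} (hu : AlgebraicIndependent ℂ u) {x : K}
    (hx : ¬ IsAlgebraic (IntermediateField.adjoin ℂ (Set.range u)) x) :
    AlgebraicIndependent ℂ (Fin.snoc u x : Fin (k + 1) → K) := by
  have h1 : Transcendental (Algebra.adjoin ℂ (Set.range u)) x := by
    intro h
    exact hx (IntermediateField.isAlgebraic_adjoin_iff.2 h)
  have h2 : AlgebraicIndependent ℂ (fun o : Option (Fin k) => o.elim x u) :=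
    (hu.option_iff_transcendental x).2 h1
  have h3 := h2.comp (fun i : Fin (k + 1) => (finSuccEquivLast i)) finSuccEquivLast.injective
  have e1 : (fun o : Option (Fin k) => o.elim x u) ∘ (fun i : Fin (k + 1) => finSuccEquivLast i) =
      (Fin.snoc u x : Fin (k + 1) → K) := by
    funext i
    refine Fin.lastCases ?_ (fun i => ?_) i
    · simp
    · simp
  rw [e1] at h3
  exact h3

/-- two linear systems together -/
theorem join_sections {A A' : Place ℂ K → ℚ} {k m : ℕ} (hm : 1 ≤ m) {g : Fin (k + 1) → K}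
    (hg : ∀ i, Fn y (m • A) (g i)) (hg0 : g 0 ≠ 0)
    (hind : AlgebraicIndependent ℂ (fun i : Fin k => g i.succ / g 0)) {x : K}
    (hx : x ∈ rat y A')
    (hxt : ¬ IsAlgebraic (IntermediateField.adjoin ℂ
      (Set.range fun i : Fin k => g i.succ / g 0)) x) :
    IitakaGe y (fun P => (A P + A' P) / 2) (k + 1) := by
  obtain ⟨m', f, f', hm', hf, hf', hf0, rfl⟩ := hx
  refine ⟨2 * (m * m'), by nlinarith, Fin.cons (g 0 ^ m' * f' ^ m)
    (Fin.snoc (fun i : Fin k => g i.succ * g 0 ^ (m' - 1) * f' ^ m)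
      (g 0 ^ m' * (f * f' ^ (m - 1))) : Fin (k + 1) → K), fun i => ?_, ?_, ?_⟩
  · have hD : ∀ P, (m' • (m • A) + m • (m' • A')) P =
        ((2 * (m * m')) • fun P => (A P + A' P) / 2) P := by
      intro P
      simp only [Pi.add_apply, smul_ap]
      push_cast
      ring
    have h0 : Fn y (m' • (m • A)) (g 0 ^ m') := (hg 0).pow m'
    have h0' : Fn y (m • (m' • A')) (f' ^ m) := hf'.pow m
    have h1 : ∀ i : Fin k, Fn y (m' • (m • A)) (g i.succ * g 0 ^ (m' - 1)) := by
      intro i
      refine ((hg i.succ).mul ((hg 0).pow (m' - 1))).mono fun P _ => ?_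
      have e1 : ((m' - 1 : ℕ) : ℚ) = m' - 1 := by
        rw [Nat.cast_sub hm']
        simp
      simp only [Pi.add_apply, smul_ap, e1]
      linarith
    have h2 : Fn y (m • (m' • A')) (f * f' ^ (m - 1)) := by
      refine (hf.mul (hf'.pow (m - 1))).mono fun P _ => ?_
      have e1 : ((m - 1 : ℕ) : ℚ) = m - 1 := by
        rw [Nat.cast_sub hm]
        simp
      simp only [Pi.add_apply, smul_ap, e1]
      linarith
    refine fn_isFunctionSection ?_
    refine Fin.cases ?_ (fun i => ?_) i
    · exact (h0.mul h0').mono fun P _ => (hD P).le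
    · rw [Fin.cons_succ]
      refine Fin.lastCases ?_ (fun i => ?_) i
      · rw [Fin.snoc_last]
        exact (h0.mul h2).mono fun P _ => (hD P).le
      · rw [Fin.snoc_castSucc]
        exact ((h1 i).mul h0').mono fun P _ => (hD P).le
  · rw [Fin.cons_zero]
    exact mul_ne_zero (pow_ne_zero _ hg0) (pow_ne_zero _ hf0)
  · have h3 := indep_snoc hind hxt
    have e1 : (fun i : Fin (k + 1) => (Fin.cons (g 0 ^ m' * f' ^ m)
        (Fin.snoc (fun i : Fin k => g i.succ * g 0 ^ (m' - 1) * f' ^ m)
          (g 0 ^ m' * (f * f' ^ (m - 1))) : Fin (k + 1) → K) : Fin (k + 1 + 1) → K) i.succ /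
        (Fin.cons (g 0 ^ m' * f' ^ m)
        (Fin.snoc (fun i : Fin k => g i.succ * g 0 ^ (m' - 1) * f' ^ m)
          (g 0 ^ m' * (f * f' ^ (m - 1))) : Fin (k + 1) → K) : Fin (k + 1 + 1) → K) 0) =
        (Fin.snoc (fun i : Fin k => g i.succ / g 0) (f / f') : Fin (k + 1) → K) := by
      funext i
      rw [Fin.cons_succ, Fin.cons_zero]
      refine Fin.lastCases ?_ (fun i => ?_) i
      · rw [Fin.snoc_last, Fin.snoc_last]
        obtain ⟨m1, rfl⟩ : ∃ m1, m = m1 + 1 := ⟨m - 1, by omega⟩
        rw [Nat.add_sub_cancel, pow_succ]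
        field_simp
      · rw [Fin.snoc_castSucc, Fin.snoc_castSucc]
        obtain ⟨m1, rfl⟩ : ∃ m1, m' = m1 + 1 := ⟨m' - 1, by omega⟩
        rw [Nat.add_sub_cancel, pow_succ]
        field_simp
    rw [e1]
    exact h3

/-- **The largest Iitaka dimension** of the divisors below `D`, and the field of the base. -/
theorem exists_largest (hn : Algebra.trdeg ℂ K = n) {D : Place ℂ K → ℚ} (hps : PsD y D) :
    ∃ (t : ℕ) (A : Place ℂ K → ℚ) (m : ℕ) (g : Fin (t + 1) → K), FinSup y A ∧ PsD y (D - A) ∧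
      1 ≤ m ∧ (∀ i, Fn y (m • A) (g i)) ∧ g 0 ≠ 0 ∧
      AlgebraicIndependent ℂ (fun i : Fin t => g i.succ / g 0) ∧
      ∀ A', FinSup y A' → PsD y (D - A') → ∀ x ∈ rat y A',
        IsAlgebraic (IntermediateField.adjoin ℂ (Set.range fun i : Fin t => g i.succ / g 0)) x := by
  classical
  obtain ⟨p, hp⟩ : ∃ p : ℕ → Prop, p = fun k => ∃ A, FinSup y A ∧ PsD y (D - A) ∧
      IitakaGe y A k := ⟨_, rfl⟩
  obtain ⟨t, ht⟩ : ∃ t, t = Nat.findGreatest p n := ⟨_, rfl⟩
  have h0 : p 0 := by
    rw [hp]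
    refine ⟨0, eff_zero.2, by rwa [sub_zero], 1, le_rfl, fun _ => 1, fun _ => ?_, one_ne_zero,
      algebraicIndependent_empty_type⟩
    refine fn_isFunctionSection (fn_one.mono fun P _ => ?_)
    simp
  have h1 : p t := by
    rw [ht]
    exact Nat.findGreatest_spec (Nat.zero_le n) h0
  have hmax : ∀ k, p k → k ≤ t := by
    intro k hk
    have hkn : k ≤ n := by
      rw [hp] at hk
      obtain ⟨A, -, -, m, -, g, -, -, hind⟩ := hk
      exact card_le hn hind
    rw [ht]
    exact Nat.le_findGreatest hkn hk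
  have h1' := h1
  rw [hp] at h1'
  obtain ⟨A, hA, hps', m, hm, g, hg, hg0, hind⟩ := h1'
  refine ⟨t, A, m, g, hA, hps', hm, fun i => isFunctionSection_fn (hg i), hg0, hind,
    fun A' hA' hps'' x hx => ?_⟩
  by_contra hcon
  have h2 : p (t + 1) := by
    rw [hp]
    refine ⟨fun P => (A P + A' P) / 2, ?_, mean_psef hps' hps'',
      join_sections hm (fun i => isFunctionSection_fn (hg i)) hg0 hind hx hcon⟩
    refine (hA.union hA').subset ?_
    rintro P ⟨hP, hne⟩
    by_contra hcon'
    rw [Set.mem_union] at hcon'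
    push Not at hcon'
    have e1 : A P = 0 := by
      by_contra h3
      exact hcon'.1 ⟨hP, h3⟩
    have e2 : A' P = 0 := by
      by_contra h3
      exact hcon'.2 ⟨hP, h3⟩
    exact hne (by simp [e1, e2])
  have := hmax _ h2
  omega

end

end Pool.Agent.Helper7.CP
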