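import Pool.Agent.Helper7.CP.Base

/-!
The restriction of the divisor to the generic fibre of the largest fibration has Iitaka dimension at
most zero; the case of a fibration with finite fibres.
-/

set_option autoImplicit false
set_option linter.unusedSectionVars false
set_option linter.overlappingInstances false

open FF Module Pool.Agent.W602.GT Pool.Agent.Y172 Pool.Agent.R887 Pool.Agent.N110
open Pool.Agent.NH31

namespace Pool.Agent.Helper7.CP

section

variable {K : Type} [Field K] [Algebra ℂ K] {N n : ℕ} {y : Fin (N + 1) → K}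

/-- the base field is algebraic over the ratios of sections of `P0` -/
theorem Base.alg {D P0 : Place ℂ K → ℚ} {t m : ℕ} {F : IntermediateField ℂ K} {u : Fin t → K}
    (h : Base y D t F P0 m u) :
    ∀ x ∈ F, IsAlgebraic (IntermediateField.adjoin ℂ (rat y P0)) x := by
  intro x hx
  rw [h.fld, mem_acl] at hx
  have h1 : IntermediateField.adjoin ℂ (Set.range u) ≤ IntermediateField.adjoin ℂ (rat y P0) := by
    refine IntermediateField.adjoin.mono ℂ _ _ ?_
    rintro _ ⟨i, rfl⟩
    exact ⟨m, u i, 1, h.pos, h.sec i, h.one m, one_ne_zero, by rw [div_one]⟩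
  exact isAlg_trans (fun a ha => isAlgebraic_algebraMap
    (⟨a, h1 ha⟩ : IntermediateField.adjoin ℂ (rat y P0))) hx

/-- sections of multiples of `P0` which vanish along prime divisors which are not horizontal -/
theorem Base.van {D P0 : Place ℂ K → ℚ} {t m : ℕ} {F : IntermediateField ℂ K} {u : Fin t → K}
    (h : Base y D t F P0 m u) {G : Place ℂ K → ℚ} (hG : FinSup y G)
    (hhor : ∀ P, IsPrimeDivisor y P → Horizontal F P → G P ≤ 0) :
    ∃ (k : ℕ) (τ : K), τ ≠ 0 ∧ ∀ P, IsPrimeDivisor y P → G P ≤ (P.ord τ : ℚ) + k * P0 P := by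
  classical
  have hT : {P | IsPrimeDivisor y P ∧ 0 < G P}.Finite :=
    hG.subset fun P hP => ⟨hP.1, hP.2.ne'⟩
  obtain ⟨c, hc⟩ : ∃ c : ℚ, c = ∑ P ∈ hT.toFinset, |G P| := ⟨_, rfl⟩
  obtain ⟨k, τ, hτ0, hτ, h1⟩ := exists_van_all (y := y) (F := F) (U := P0) (a := 1) le_rfl
    (σ := 1) (h.one 1) one_ne_zero h.alg c hT.toFinset (by
      intro P hP
      rw [Set.Finite.mem_toFinset] at hP
      refine ⟨hP.1, fun h2 => ?_⟩
      exact absurd (hhor P hP.1 h2) (not_le.2 hP.2))
  refine ⟨k, τ, hτ0, fun P hP => ?_⟩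
  have h2 := (hτ P hP).resolve_left hτ0
  rw [smul_ap] at h2
  by_cases h3 : 0 < G P
  · have h4 : P ∈ hT.toFinset := by
      rw [Set.Finite.mem_toFinset]
      exact ⟨hP, h3⟩
    have h5 : |G P| ≤ c := by
      rw [hc]
      exact Finset.single_le_sum (f := fun P => |G P|) (fun _ _ => abs_nonneg _) h4
    have h6 := h1 P h4
    have h7 := le_abs_self (G P)
    linarith
  · have := not_lt.1 h3
    linarith

theorem finSup_of_eff {A : Place ℂ K → ℚ} (h : Effective y A) : FinSup y A := h.2

theorem finSup_ord (hy : NormalModel y) {f : K} (hf : f ≠ 0) :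
    FinSup y (fun P => (P.ord f : ℚ)) := by
  refine (finite_ord hy hf).subset ?_
  rintro P ⟨hP, hne⟩
  exact ⟨hP, fun h => hne (by simp [h])⟩

theorem FinSup.of {A B : Place ℂ K → ℚ} (hA : FinSup y A) (h : ∀ P, A P = 0 → B P = 0) :
    FinSup y B := by
  refine Set.Finite.subset hA ?_
  rintro P ⟨hP, hne⟩
  exact ⟨hP, fun h1 => hne (h P h1)⟩

theorem FinSup.of2 {A B C : Place ℂ K → ℚ} (hA : FinSup y A) (hB : FinSup y B)
    (h : ∀ P, A P = 0 → B P = 0 → C P = 0) : FinSup y C := by
  refine (Set.Finite.union hA hB).subset ?_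
  rintro P ⟨hP, hne⟩
  by_contra hcon
  rw [Set.mem_union] at hcon
  push Not at hcon
  refine hne (h P ?_ ?_)
  · by_contra h1
    exact hcon.1 ⟨hP, h1⟩
  · by_contra h1
    exact hcon.2 ⟨hP, h1⟩

/-- **The generic fibre.** If `D + k P0 - A` is pseudo-effective then two sections of a multiple of
`A` on the generic fibre are proportional over the base field. -/
theorem fibre_le (hy : NormalModel y) {D P0 A : Place ℂ K → ℚ} (hA : FinSup y A) {t m : ℕ}
    {F : IntermediateField ℂ K} {u : Fin t → K} (h : Base y D t F P0 m u) {k : ℕ}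
    (hps : PsD y (D + k • P0 - A)) {m1 : ℕ} (hm1 : 1 ≤ m1)
    {f : Fin 2 → K} (hf0 : ∀ i, f i ≠ 0)
    (hf : ∀ i P, IsPrimeDivisor y P → Horizontal F P → 0 ≤ m1 * A P + (P.ord (f i) : ℚ)) :
    f 1 / f 0 ∈ F := by
  classical
  -- a function of the base which kills the poles
  obtain ⟨G, hG⟩ : ∃ G : Place ℂ K → ℚ, G = fun P => if Horizontal F P then 0 else
      |m1 * A P + (P.ord (f 0) : ℚ)| + |m1 * A P + (P.ord (f 1) : ℚ)| := ⟨_, rfl⟩
  have hGs : FinSup y G := by
    have h1 : FinSup y (fun P => |m1 * A P + (P.ord (f 0) : ℚ)| +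
        |m1 * A P + (P.ord (f 1) : ℚ)|) := by
      refine FinSup.of2 (FinSup.of2 hA (finSup_ord hy (hf0 0)) (C := fun P =>
        |m1 * A P + (P.ord (f 0) : ℚ)|) fun P h1 h2 => ?_) (FinSup.of2 hA (finSup_ord hy (hf0 1))
        (C := fun P => |m1 * A P + (P.ord (f 1) : ℚ)|) fun P h1 h2 => ?_) fun P h1 h2 => ?_
      · rw [h1, h2]
        simp
      · rw [h1, h2]
        simp
      · rw [h1, h2, add_zero]
    refine FinSup.of h1 fun P h2 => ?_
    rw [hG]
    simp only []
    split_ifs
    · rfl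
    · exact h2
  obtain ⟨k', τ, hτ0, hτ⟩ := h.van hGs (fun P _ h1 => by
    rw [hG]
    simp only []
    rw [if_pos h1])
  have hp0 : ∀ P, IsPrimeDivisor y P → 0 ≤ P0 P := h.eff.1
  have hGn : ∀ P, 0 ≤ G P := by
    intro P
    rw [hG]
    simp only []
    split_ifs
    · exact le_rfl
    · positivity
  have hff : ∀ i P, IsPrimeDivisor y P →
      0 ≤ m1 * A P + k' * P0 P + (P.ord (τ * f i) : ℚ) := by
    intro i P hP
    rw [P.ord_mul hτ0 (hf0 i)]
    push_cast
    have h1 := hτ P hP
    by_cases h2 : Horizontal F P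
    · have h3 := hf i P hP h2
      have h4 := hGn P
      linarith
    · have h3 : G P = |m1 * A P + (P.ord (f 0) : ℚ)| + |m1 * A P + (P.ord (f 1) : ℚ)| := by
        rw [hG]
        simp only []
        rw [if_neg h2]
      have h4 : -(G P) ≤ m1 * A P + (P.ord (f i) : ℚ) := by
        have e0 := neg_abs_le (m1 * A P + (P.ord (f 0) : ℚ))
        have e1 := neg_abs_le (m1 * A P + (P.ord (f 1) : ℚ))
        have e2 := abs_nonneg (m1 * A P + (P.ord (f 0) : ℚ))
        have e3 := abs_nonneg (m1 * A P + (P.ord (f 1) : ℚ))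
        rw [h3]
        fin_cases i
        · simp only [Fin.zero_eta]
          linarith
        · simp only [Fin.mk_one]
          linarith
      linarith
  have hg0 : ∀ i, τ * f i ≠ 0 := fun i => mul_ne_zero hτ0 (hf0 i)
  -- the divisor `A1`
  obtain ⟨s, hs⟩ : ∃ s : ℕ, s = m1 + m1 * k + k' := ⟨_, rfl⟩
  have hs1 : 1 ≤ s := by omega
  have hs0 : (0 : ℚ) < s := by exact_mod_cast hs1
  obtain ⟨A1, hA1⟩ : ∃ A1 : Place ℂ K → ℚ, A1 = fun P => (m1 * A P + k' * P0 P) / s := ⟨_, rfl⟩
  have hsA : ∀ P, (s : ℚ) * A1 P = m1 * A P + k' * P0 P := by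
    intro P
    rw [hA1]
    simp only []
    field_simp
  have hsc : (s : ℚ) = m1 + m1 * k + k' := by
    rw [hs]
    push_cast
    ring
  have hAs : FinSup y A1 := by
    refine FinSup.of2 hA h.eff.2 fun P h1 h2 => ?_
    have h3 : (s : ℚ) * A1 P = 0 := by
      rw [hsA, h1, h2]
      ring
    exact (mul_eq_zero.1 h3).resolve_left hs0.ne'
  have hps' : PsD y (D - A1) := by
    refine ((h.psd.smul (p := m1 * k + k') (q := 1) (D' := fun P => (m1 * k + k') * (D P - P0 P))
      le_rfl fun P _ => ?_).add (hps.smul (p := m1) (q := 1)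
      (D' := fun P => m1 * (D P + k * P0 P - A P)) le_rfl fun P _ => ?_)).smul
      (p := 1) (q := s) hs1 fun P _ => ?_
    · rw [Pi.sub_apply]
      push_cast
      linarith
    · rw [Pi.sub_apply, Pi.add_apply, smul_ap]
      push_cast
      linarith
    · have h2 := hsA P
      simp only [Pi.add_apply, Pi.sub_apply, mul_sub]
      rw [h2, hsc]
      push_cast
      linarith
  refine h.max A1 hAs hps' _ ⟨s, τ * f 1, τ * f 0, hs1, fun P hP => Or.inr ?_,
    fun P hP => Or.inr ?_, hg0 0, ?_⟩
  · rw [smul_ap, hsA]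
    have h1 := hff 1 P hP
    linarith
  · rw [smul_ap, hsA]
    have h1 := hff 0 P hP
    linarith
  · rw [mul_div_mul_left _ _ hτ0]

/-- **The generic fibre.** Two sections of a multiple of `D` on the generic fibre are proportional
over the base field. -/
theorem fibre_le' (hy : NormalModel y) {D P0 : Place ℂ K → ℚ} (hD : FinSup y D) {t m : ℕ}
    {F : IntermediateField ℂ K} {u : Fin t → K} (h : Base y D t F P0 m u) {m1 : ℕ} (hm1 : 1 ≤ m1)
    {f : Fin 2 → K} (hf0 : ∀ i, f i ≠ 0)
    (hf : ∀ i P, IsPrimeDivisor y P → Horizontal F P → 0 ≤ m1 * D P + (P.ord (f i) : ℚ)) :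
    f 1 / f 0 ∈ F := by
  refine fibre_le hy hD h (k := 0) (PsD.principal one_ne_zero fun P _ => ?_) hm1 hf0 hf
  rw [P.ord_one, Pi.sub_apply, Pi.add_apply, smul_ap]
  push_cast
  linarith

/-- the dimension of the base -/
theorem trdeg_base {t : ℕ} {F : IntermediateField ℂ K} {u : Fin t → K}
    (hu : AlgebraicIndependent ℂ u) (hF : F = acl ℂ (Set.range u)) : Algebra.trdeg ℂ F = t := by
  have hmem : ∀ i, u i ∈ F := fun i => by
    rw [hF]
    exact subset_acl _ ⟨i, rfl⟩
  obtain ⟨u', hu'⟩ : ∃ u' : Fin t → F, u' = fun i => ⟨u i, hmem i⟩ := ⟨_, rfl⟩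
  have hval : ∀ i, ((u' i : F) : K) = u i := fun i => by rw [hu']
  have hind : AlgebraicIndependent ℂ u' := by
    refine AlgebraicIndependent.of_comp F.val ?_
    have : (F.val ∘ u' : Fin t → K) = u := funext fun i => hval i
    rw [this]
    exact hu
  have halg : Algebra.IsAlgebraic (Algebra.adjoin ℂ (Set.range u')) F := by
    refine ⟨fun x => ?_⟩
    by_contra hx
    have h2 : AlgebraicIndependent ℂ (fun o : Option (Fin t) => o.elim x u') :=
      (hind.option_iff_transcendental x).2 hx
    have h3 := h2.map' (f := F.val) F.val.injective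
    have e1 : (F.val ∘ fun o : Option (Fin t) => o.elim x u' : Option (Fin t) → K) =
        fun o : Option (Fin t) => o.elim (x : K) u := by
      funext o
      cases o with
      | none => rfl
      | some i => exact hval i
    rw [e1] at h3
    have h4 := (hu.option_iff_transcendental (x : K)).1 h3
    have h5 : ∀ z ∈ F, IsAlgebraic (IntermediateField.adjoin ℂ (Set.range u)) z := by
      intro z hz
      rw [hF, mem_acl] at hz
      exact hz
    exact h4 (IntermediateField.isAlgebraic_adjoin_iff.1 (h5 _ x.2))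
  apply le_antisymm
  · refine (Algebra.IsAlgebraic.trdeg_le_cardinalMk ℂ (Set.range u')).trans ?_
    have := Cardinal.mk_range_le (f := u')
    simpa using this
  · have h1 := hind.lift_cardinalMk_le_trdeg
    simpa using h1

/-- independent functions on the base -/
theorem card_le_base {t l : ℕ} {F : IntermediateField ℂ K} (hF : Algebra.trdeg ℂ F = t)
    {v : Fin l → K} (hv : AlgebraicIndependent ℂ v) (hm : ∀ i, v i ∈ F) : l ≤ t := by
  obtain ⟨v', hv'⟩ : ∃ v' : Fin l → F, v' = fun i => ⟨v i, hm i⟩ := ⟨_, rfl⟩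
  have hval : ∀ i, ((v' i : F) : K) = v i := fun i => by rw [hv']
  have hind : AlgebraicIndependent ℂ v' := by
    refine AlgebraicIndependent.of_comp F.val ?_
    have : (F.val ∘ v' : Fin l → K) = v := funext fun i => hval i
    rw [this]
    exact hv
  have h1 := hind.lift_cardinalMk_le_trdeg
  rw [hF] at h1
  simpa using h1

end

end Pool.Agent.Helper7.CP
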