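import Pool.Agent.Helper7.CP.Base
import Pool.Graph.R_pool_sql_team_seeded_63374d34.N110.Pull
import Pool.Graph.R_pool_sql_team_seeded_63374d34.N110.Pair

/-!
The largest fibration is preserved by the birational self-maps which preserve the divisor.
-/

set_option autoImplicit false
set_option linter.unusedSectionVars false
set_option linter.overlappingInstances false

open FF Module Pool.Agent.W602.GT Pool.Agent.Y172 Pool.Agent.R887 Pool.Agent.N110
open Pool.Agent.NH31

namespace Pool.Agent.Helper7.CP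

section

variable {K : Type} [Field K] [Algebra ℂ K] {N n : ℕ} {y : Fin (N + 1) → K}

/-- the automorphism `φ` maps sections of `m D + b H` to sections of `m D + b H'`, after
multiplication by `J ^ m` -/
def Pres (y : Fin (N + 1) → K) (D : Place ℂ K → ℚ) (φ : K ≃ₐ[ℂ] K) : Prop :=
  ∃ J : K, J ≠ 0 ∧ ∀ H, Effective y H → ∃ H', Effective y H' ∧ ∀ m b : ℕ, 1 ≤ m →
    ∀ g, Fn y (m • D + b • H) g → Fn y (m • D + b • H') (J ^ m * φ g)

theorem inv_field (hy : NormalModel y) {D P0 : Place ℂ K → ℚ} {t m : ℕ}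
    {F : IntermediateField ℂ K} {u : Fin t → K} (h : Base y D t F P0 m u) {φ : K ≃ₐ[ℂ] K}
    (hφ : Pres y D φ) : ∀ x ∈ F, φ x ∈ F := by
  obtain ⟨J, hJ0, hJ⟩ := hφ
  obtain ⟨v, hv⟩ : ∃ v : Fin (t + 1) → K, v = Fin.cons 1 u := ⟨_, rfl⟩
  have hu0 : ∀ i, u i ≠ 0 := fun i => h.ind.ne_zero i
  have hv0 : ∀ i, v i ≠ 0 := by
    intro i
    rw [hv]
    refine Fin.cases ?_ (fun i => ?_) i
    · rw [Fin.cons_zero]
      exact one_ne_zero
    · rw [Fin.cons_succ]
      exact hu0 i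
  have hvs : ∀ i, Fn y (m • P0) (v i) := by
    intro i
    rw [hv]
    refine Fin.cases ?_ (fun i => ?_) i
    · rw [Fin.cons_zero]
      exact h.one m
    · rw [Fin.cons_succ]
      exact h.sec i
  have hφv : ∀ i, φ (v i) ≠ 0 := fun i => by
    rw [Ne, map_eq_zero]
    exact hv0 i
  have hm' : (0 : ℚ) < m := by exact_mod_cast h.pos
  obtain ⟨A, hA⟩ : ∃ A, A = polD (fun i => φ (v i)) m := ⟨_, rfl⟩
  have hAs : FinSup y A := by
    rw [hA]
    exact polD_sup hy hφv h.pos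
  -- `D - A` is pseudo-effective
  have hps : PsD y (D - A) := by
    obtain ⟨H, hH, h1⟩ := h.psd
    obtain ⟨H', hH', h2⟩ := hJ H hH
    refine ⟨H', hH', fun δ hδ => ?_⟩
    obtain ⟨m2, b, hm2, hb, f, hf, h3⟩ := h1 δ hδ
    refine ⟨m2, b, hm2, hb, J ^ m2 * φ f, mul_ne_zero (pow_ne_zero _ hJ0) (by
      rw [Ne, map_eq_zero]
      exact hf), fun P hP => Or.inr ?_⟩
    obtain ⟨i, hi⟩ := exists_polD (fun i => φ (v i)) h.pos P
    rw [← hA] at hi
    have h4 : Fn y ((m2 * m) • D + (b * m) • H) (f ^ m * v i ^ m2) := by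
      refine ((h3.pow m).mul ((hvs i).pow m2)).mono fun P _ => ?_
      simp only [Pi.add_apply, Pi.sub_apply, smul_ap]
      push_cast
      linarith
    have h5 := (h2 (m2 * m) (b * m) (Nat.mul_pos hm2 h.pos) _ h4 P hP).resolve_left
      (mul_ne_zero (pow_ne_zero _ hJ0) (by
        rw [Ne, map_eq_zero]
        exact mul_ne_zero (pow_ne_zero _ hf) (pow_ne_zero _ (hv0 i))))
    have e1 : J ^ (m2 * m) * φ (f ^ m * v i ^ m2) = (J ^ m2 * φ f) ^ m * φ (v i) ^ m2 := by
      rw [map_mul, map_pow, map_pow, mul_pow, ← pow_mul]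
      ring
    have hJf : J ^ m2 * φ f ≠ 0 := mul_ne_zero (pow_ne_zero _ hJ0) (by
      rw [Ne, map_eq_zero]
      exact hf)
    rw [e1, P.ord_mul (pow_ne_zero _ hJf) (pow_ne_zero _ (hφv i)), P.ord_pow, P.ord_pow] at h5
    simp only [Pi.add_apply, smul_ap] at h5
    simp only [Pi.add_apply, Pi.sub_apply, smul_ap]
    push_cast at h5
    have h6 : (m : ℚ) * (m2 * (D P - A P) + b * H' P + (P.ord (J ^ m2 * φ f) : ℚ)) =
        (m2 * m * D P + b * m * H' P + (m * (P.ord (J ^ m2 * φ f) : ℚ) +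
          m2 * (P.ord (φ (v i)) : ℚ))) - m2 * (m * A P + (P.ord (φ (v i)) : ℚ)) := by
      ring
    have h7 : (m : ℚ) * A P + (P.ord (φ (v i)) : ℚ) = 0 := by
      rw [hi]
      ring
    rw [h7, mul_zero, sub_zero] at h6
    have h8 : 0 ≤ (m : ℚ) * (m2 * (D P - A P) + b * H' P + (P.ord (J ^ m2 * φ f) : ℚ)) := by
      rw [h6]
      linarith
    have h9 := (mul_nonneg_iff_of_pos_left hm').1 h8
    linarith
  have hmem : ∀ i, φ (u i) ∈ F := by
    intro i
    refine h.max A hAs hps _ ⟨m, φ (u i), 1, h.pos, fun P hP => Or.inr ?_, fun P hP => Or.inr ?_,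
      one_ne_zero, by rw [div_one]⟩
    · have h1 := le_polD (fun i => φ (v i)) h.pos P i.succ
      rw [← hA] at h1
      simp only [hv, Fin.cons_succ] at h1
      rw [smul_ap]
      linarith
    · have h1 := le_polD (fun i => φ (v i)) h.pos P 0
      rw [← hA] at h1
      simp only [hv, Fin.cons_zero, map_one] at h1
      rw [smul_ap]
      linarith
  intro x hx
  rw [h.fld] at hx
  have h1 : IsAlgebraic (IntermediateField.adjoin ℂ ((φ : K →ₐ[ℂ] K) '' Set.range u)) (φ x) :=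
    alg_image (φ : K →ₐ[ℂ] K) (mem_acl.1 hx)
  have h2 : IntermediateField.adjoin ℂ ((φ : K →ₐ[ℂ] K) '' Set.range u) ≤ F := by
    rw [IntermediateField.adjoin_le_iff]
    rintro _ ⟨_, ⟨i, rfl⟩, rfl⟩
    exact hmem i
  refine h.closed ?_
  exact isAlg_trans (fun a ha => isAlgebraic_algebraMap (⟨a, h2 ha⟩ : F)) h1

/-- birational self-maps which preserve the log canonical divisor -/
theorem pres_of_pullLe (hy : NormalModel y) {Δ : Place ℂ K → ℚ} {φ : K ≃ₐ[ℂ] K}
    (hφ : PullLe φ y n Δ) {x : Fin n → K} {E : Fin n → Derivation ℂ K K}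
    (hE : ∀ i j, E i (x j) = if i = j then 1 else 0) (hfr : IsFrame E) {c : Place ℂ K → ℤ}
    (hc : IsDisc y E c) : Pres y (fun P => (c P : ℚ) + Δ P) φ := by
  obtain ⟨J, hJ0, hJ⟩ := exists_jac φ hE hfr
  have key : ∀ (m b : ℕ) (H : Place ℂ K → ℚ) (g : K),
      Fn y (m • (fun P => (c P : ℚ) + Δ P) + b • H) g ↔ g ∈ Lsp y c m (m • Δ + b • H) := by
    intro m b H g
    refine forall₂_congr fun P _ => ?_
    refine or_congr_right ?_
    simp only [Pi.add_apply, smul_ap]
    constructor <;> intro h <;> linarith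
  refine ⟨J, hJ0, fun H hH => ?_⟩
  obtain ⟨H', hH', h1⟩ := pull_sections hy hH hφ hE hfr hc hJ
  refine ⟨H', hH', fun m b hm g hg => ?_⟩
  rw [key] at hg ⊢
  exact h1 m b hm g hg

end

end Pool.Agent.Helper7.CP
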