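import Pool.Agent.Helper7.CP.B0
import Pool.Agent.Helper7.CP.Inv
import Pool.Agent.Helper21.CP.Norm

/-!
The largest fibration: forms.
-/

set_option autoImplicit false
set_option linter.unusedSectionVars false
set_option linter.overlappingInstances false

open FF Module Pool.Agent.W602.GT Pool.Agent.Y172 Pool.Agent.R887 Pool.Agent.N110
open Pool.Agent.NH31

namespace Pool.Agent.Helper7.CP

section

variable {K : Type} [Field K] [Algebra ℂ K] {N n : ℕ} {y : Fin (N + 1) → K}

/-- `ω` is a section of `m K_X + D` on the generic fibre of the rational map `X ⇢ Z`, `F` being the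
function field of `Z`: an `m`-canonical form with order at least `- D P` along all prime divisors `P`
of `X` which dominate `Z`. -/
def FibreSection (y : Fin (N + 1) → K) (F : IntermediateField ℂ K) (n m : ℕ)
    (D : Place ℂ K → ℚ) (ω : (Fin n → Derivation ℂ K K) → K) : Prop :=
  IsPluri m ω ∧ ∀ P, IsPrimeDivisor y P → Horizontal F P → OrdGe P ω (-(D P))

/-- `f` is a section of `D` on the generic fibre of the rational map `X ⇢ Z`. -/
def FibreFunction (y : Fin (N + 1) → K) (F : IntermediateField ℂ K) (D : Place ℂ K → ℚ)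
    (f : K) : Prop :=
  f = 0 ∨ ∀ P, IsPrimeDivisor y P → Horizontal F P → -(D P) ≤ (P.ord f : ℚ)

theorem fibreSection_iff {F : IntermediateField ℂ K} {E : Fin n → Derivation ℂ K K}
    {c : Place ℂ K → ℤ} (hc : IsDisc y E c) {m : ℕ} {D : Place ℂ K → ℚ}
    {ω : (Fin n → Derivation ℂ K K) → K} (hω : IsPluri m ω) :
    FibreSection y F n m D ω ↔ Hor y F (fun P => m * c P + D P) (ω E) := by
  constructor
  · intro h P hP hh
    refine ((hc P hP m ω hω _).1 (h.2 P hP hh)).imp_right fun h1 => ?_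
    linarith
  · intro h
    refine ⟨hω, fun P hP hh => (hc P hP m ω hω _).2 ((h P hP hh).imp_right fun h1 => ?_)⟩
    linarith

theorem fibreFunction_iff {F : IntermediateField ℂ K} {D : Place ℂ K → ℚ} {f : K} :
    FibreFunction y F D f → Hor y F D f := by
  rintro (h | h) P hP hh
  · exact Or.inl h
  · right
    have := h P hP hh
    linarith

/-- divisors below `D` have Iitaka dimension at most `t` -/
theorem Base.le {D P0 : Place ℂ K → ℚ} {t m : ℕ} {F : IntermediateField ℂ K} {u : Fin t → K}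
    (h : Base y D t F P0 m u) {A : Place ℂ K → ℚ} (hA : FinSup y A) (hps : PsD y (D - A)) {l : ℕ}
    (hl : IitakaGe y A l) : l ≤ t := by
  obtain ⟨m1, hm1, g, hg, hg0, hind⟩ := hl
  exact card_le_base (trdeg_base h.ind h.fld) hind fun i => h.max A hA hps _
    ⟨m1, g i.succ, g 0, hm1, isFunctionSection_fn (hg _), isFunctionSection_fn (hg 0), hg0, rfl⟩

/-- the base has dimension `t` -/
theorem Base.iitaka {D P0 : Place ℂ K → ℚ} {t m : ℕ} {F : IntermediateField ℂ K}
    {u : Fin t → K} (h : Base y D t F P0 m u) : IitakaGe y P0 t := by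
  refine ⟨m, h.pos, Fin.cons 1 u, fun i => ?_, ?_, ?_⟩
  · refine fn_isFunctionSection ?_
    refine Fin.cases ?_ (fun i => ?_) i
    · rw [Fin.cons_zero]
      exact h.one m
    · rw [Fin.cons_succ]
      exact h.sec i
  · rw [Fin.cons_zero]
    exact one_ne_zero
  · have e1 : (fun i : Fin t => (Fin.cons 1 u : Fin (t + 1) → K) i.succ /
        (Fin.cons 1 u : Fin (t + 1) → K) 0) = u := by
      funext i
      rw [Fin.cons_succ, Fin.cons_zero, div_one]
    rw [e1]
    exact h.ind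

theorem normBound (hy : NormalModel y) (hn : Algebra.trdeg ℂ K = n) {F : IntermediateField ℂ K}
    (hF : ∀ x : K, IsAlgebraic F x → x ∈ F) : NormBound y F := by
  intro s e he
  obtain ⟨C, hC, h1⟩ := Pool.Agent.Helper21.CP.norm_bound hy hn F hF e he
  exact ⟨C, hC.subset fun P hP => ⟨hP.1, hP.2.2⟩, fun P hP hh c i hi => h1 P hP hh c i hi⟩

/-- **Fibres of numerical dimension zero.** -/
theorem kappa_strong (hy : NormalModel y) (hn : Algebra.trdeg ℂ K = n)
    {D P0 A H : Place ℂ K → ℚ} {t m : ℕ} {F : IntermediateField ℂ K} {u : Fin t → K}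
    (h : Base y D t F P0 m u) (hA : FinSup y A) (hI : IitakaGe y A t) (hH : Effective y H)
    (hstr : ∀ m, 1 ≤ m → ∃ f, f ≠ 0 ∧ Fn y (m • (D - A) + H) f)
    {m1 : ℕ} (hm1 : 1 ≤ m1) {s0 : K} (hs0 : s0 ≠ 0) (hs : Hor y F (m1 • D) s0)
    (hB : ∀ H, Effective y H → ∃ B : ℕ, ∀ m, 1 ≤ m → ∀ (s : ℕ) (e : Fin s → K),
      LinearIndependent F e → (∀ i, Hor y F (m • D + H) (e i)) → s ≤ B) : IitakaGe y D t := by
  have hps : PsD y (D - A) := by
    refine ⟨H, hH, fun δ hδ => ?_⟩
    obtain ⟨m2, hm2⟩ := exists_nat_ge (1 / δ)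
    obtain ⟨f, hf0, hf⟩ := hstr (m2 + 1) (by omega)
    refine ⟨m2 + 1, 1, by omega, ?_, f, hf0, by rwa [one_smul]⟩
    rw [div_le_iff₀ hδ] at hm2
    push_cast
    nlinarith
  obtain ⟨m2, hm2, g, hg, hg0, hind⟩ := hI
  obtain ⟨hb, hle⟩ := rebase hy h (fun A hA hps k hk => h.le hA hps hk) h.eff.2 hA hm2
    (fun i => isFunctionSection_fn (hg i)) hg0 hind hps
  obtain ⟨B, hB⟩ := hB H hH
  refine kappa_of_fibre hy hb (normBound hy hn fun x hx => h.closed hx) hH hm2 (fun j hj => ?_)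
    hm1 hs0 hs hB
  obtain ⟨f, hf0, hf⟩ := hstr (j * m2) (Nat.mul_pos hj hm2)
  refine ⟨f * g 0 ^ j, mul_ne_zero hf0 (pow_ne_zero _ hg0), fun P hP => Or.inr ?_⟩
  have h1 := (hf P hP).resolve_left hf0
  have h2 := mul_le_mul_of_nonneg_left (hle P hP) (show (0 : ℚ) ≤ j from Nat.cast_nonneg _)
  rw [P.ord_mul hf0 (pow_ne_zero _ hg0), P.ord_pow]
  simp only [Pi.add_apply, Pi.sub_apply, smul_ap] at h1 ⊢
  push_cast at h1 ⊢
  linarith

end

end Pool.Agent.Helper7.CP
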