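import Pool.Agent.Helper7.CP.Psef
import Pool.Graph.R_pool_sql_team_seeded_63374d34.N110.NV.Fin

/-!
The conjecture of Campana and Peternell for pairs with a bound for the numerical dimension.
-/

set_option autoImplicit false
set_option linter.unusedSectionVars false
set_option linter.overlappingInstances false

open FF Module Pool.Agent.W602.GT Pool.Agent.Y172 Pool.Agent.R887 Pool.Agent.N110

namespace Pool.Agent.Helper7.CP

section

variable {K : Type} [Field K] [Algebra ℂ K] {N n : ℕ} {y : Fin (N + 1) → K}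

theorem kappaGe_mono {Δ : Place ℂ K → ℚ} {k l : ℕ} (h : KappaGe y n Δ k) (hl : l ≤ k) :
    KappaGe y n Δ l := by
  obtain ⟨m, hm, ω, E, hω, h0, hind⟩ := h
  refine ⟨m, hm, fun i => ω (Fin.castLE (by omega) i), E, fun i => hω _, ?_, ?_⟩
  · exact h0
  · exact hind.comp (Fin.castLE hl) (Fin.castLE_injective hl)

theorem kappa_zero {Δ : Place ℂ K → ℚ} (h : ∃ m : ℕ, 1 ≤ m ∧
    ∃ ω : (Fin n → Derivation ℂ K K) → K, ω ≠ 0 ∧ IsSection y n m (m • Δ) ω) :
    KappaGe y n Δ 0 := by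
  obtain ⟨m, hm, ω, hω0, hω⟩ := h
  obtain ⟨E, hE⟩ : ∃ E, ω E ≠ 0 := by
    by_contra hc
    push Not at hc
    exact hω0 (funext hc)
  refine ⟨m, hm, fun _ => ω, E, fun _ => hω, hE, ?_⟩
  exact algebraicIndependent_empty_type

/-- bounds for the Iitaka dimension, and the conjecture -/
theorem cp_of_num (hy : NormalModel y) (hn : Algebra.trdeg ℂ K = n) (hn0 : 0 < n)
    {Δ : Place ℂ K → ℚ} (hΔ : {P | IsPrimeDivisor y P ∧ Δ P ≠ 0}.Finite) {ν : ℕ} (hν : ν ≤ n)
    (hnum : NumDimLt y n Δ ν) {A : Place ℂ K → ℚ} (hps : PseudoEffective y n (Δ - A)) {l : ℕ}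
    (hl : IitakaGe y A l) :
    l < ν ∧ (KappaGe y n Δ (ν - 1) → KappaGe y n Δ l) ∧
      (ν = 1 → IrregularityZero y → KappaGe y n Δ l) := by
  have h1 : l < ν := by
    by_contra h2
    exact iitaka_lt hy hn hν hnum hps (hl.mono (not_lt.1 h2))
  refine ⟨h1, fun h2 => kappaGe_mono h2 (by omega), ?_⟩
  rintro rfl hq
  obtain rfl : l = 0 := by omega
  exact kappa_zero (NV.nonvanishing hy hn hn0 hΔ
    (logPsef_of_psef hy hn (psef_of_sub hps hl)) hnum hq)

end

end Pool.Agent.Helper7.CP
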