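import Pool.Graph.R_pool_sql_team_seeded_63374d34.N110.NV.Psef
import Pool.Graph.R_pool_sql_team_seeded_63374d34.N110.RK.Stat
import Pool.Graph.R_seed8.R887.CorI

/-!
Pseudo-effective divisors: comparison of two definitions, and sums.
-/

set_option autoImplicit false
set_option linter.unusedSectionVars false
set_option linter.overlappingInstances false

open FF Module Pool.Agent.W602.GT Pool.Agent.Y172 Pool.Agent.R887 Pool.Agent.N110
open Filter

namespace Pool.Agent.Helper7.CP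

section

variable {K : Type} [Field K] [Algebra ℂ K] {N n : ℕ} {y : Fin (N + 1) → K}

/-- if `K_X + Δ - A` is pseudo-effective and `A` has a section then `K_X + Δ` is pseudo-effective -/
theorem psef_of_sub {Δ A : Place ℂ K → ℚ} (h : PseudoEffective y n (Δ - A))
    (hA : IitakaGe y A 0) : PseudoEffective y n Δ := by
  obtain ⟨H, hH, h⟩ := h
  obtain ⟨m1, hm1, g, hg, hg0, -⟩ := hA
  refine ⟨H, hH, fun δ hδ => ?_⟩
  obtain ⟨m2, b, hm2, hb, η, hη, hη0⟩ := h δ hδ
  have h1 := section_mul (r := 1) (by omega) one_pos hg0 (hg 0) hη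
  refine ⟨m2 * (m1 * 1), b * (m1 * 1), Nat.mul_pos hm2 (by omega), ?_, _, h1, fun h0 => hη0 ?_⟩
  · push_cast
    have h2 := mul_le_mul_of_nonneg_right hb (show (0 : ℝ) ≤ m1 * 1 by positivity)
    linarith
  · funext D
    have h2 := congrFun h0 D
    simp only [Pi.zero_apply] at h2
    have h3 := (mul_eq_zero.1 h2).resolve_left (pow_ne_zero _ hg0)
    exact pow_eq_zero_iff (by omega) |>.1 h3

/-- the two definitions of pseudo-effective divisors -/
theorem logPsef_of_psef (hy : NormalModel y) (hn : Algebra.trdeg ℂ K = n) {Δ : Place ℂ K → ℚ}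
    (h : PseudoEffective y n Δ) : LogPsef y n Δ := by
  intro i hi q hq
  obtain ⟨A, hA, h⟩ := h
  have hess := hy.ess
  obtain ⟨x, E, hx, hE⟩ := exists_crd hn (k := ℂ) (K := K)
  have hfr : IsFrame E := fun F => ⟨fun j => F (x j),
    (Pool.Agent.W73.PG.PULL.expand x hx E hE F).symm⟩
  obtain ⟨c, hcf, hc⟩ := exists_ordc hy hn hx hE
  have hc' : IsDisc y E c := hc
  obtain ⟨Hy, hHy, hHP⟩ := exists_hyp hy hi
  obtain ⟨f, s, hf, hfs⟩ := dominate hy hA hi hHy hHP
  obtain ⟨m, b, hm, hb, ω, hω, hω0⟩ := h (1 / (q * s + 1)) (by positivity)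
  have hbm : (b : ℝ) * (q * s + 1) ≤ m := by
    have h1 : (0 : ℝ) < q * s + 1 := by positivity
    calc (b : ℝ) * (q * s + 1) ≤ (1 / (q * s + 1) * m) * (q * s + 1) :=
          mul_le_mul_of_nonneg_right hb h1.le
      _ = m := by field_simp
  have hbm' : (b : ℚ) * (q * s) ≤ m := by
    have h1 : b * (q * s + 1) ≤ m := by exact_mod_cast hbm
    have h2 : b * (q * s) ≤ m := le_trans (Nat.mul_le_mul_left _ (Nat.le_succ _)) h1
    exact_mod_cast h2
  have hωE : ω E ≠ 0 := fun h0 => hω0 (pluri_zero hfr hω.1 h0)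
  have h1 := (isSection_iff hc' hω.1).1 hω
  obtain ⟨g, hg⟩ : ∃ g, g = ω E ^ q * f ^ (b * q) := ⟨_, rfl⟩
  have hg0 : g ≠ 0 := by
    rw [hg]
    exact mul_ne_zero (pow_ne_zero _ hωE) (pow_ne_zero _ hf)
  refine ⟨m, hm, frm x (m * q) g, fun h0 => hg0 ?_, frm_pluri x (m * q) g,
    fun P l hP hl => ?_⟩
  · rw [← frm_self hE (m * q) g, h0]
    rfl
  · rw [hc P hP _ _ (frm_pluri x (m * q) g), frm_self hE]
    right
    have h2 := (h1 P hP).resolve_left hωE
    have h3 := hfs P hP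
    rw [Pi.add_apply, Pi.smul_apply, Pi.smul_apply, nsmul_eq_mul, nsmul_eq_mul] at h2
    rw [hg, P.ord_mul (pow_ne_zero _ hωE) (pow_ne_zero _ hf), P.ord_pow, P.ord_pow,
      ← hHP P l hP hl]
    have h4 := hHy.1 P hP
    have h6 : (0 : ℚ) ≤ q := Nat.cast_nonneg q
    have hb0 : (0 : ℚ) ≤ b := Nat.cast_nonneg b
    have h7 : (b : ℚ) * (q * s) * Hy P ≤ m * Hy P := mul_le_mul_of_nonneg_right hbm' h4
    have h8 : (b * q : ℚ) * (A P) ≤ b * q * (P.ord f + s * Hy P) :=
      mul_le_mul_of_nonneg_left h3 (mul_nonneg hb0 h6)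
    have h9 : (q : ℚ) * (-(m * Δ P + b * A P)) ≤ q * (m * c P + P.ord (ω E)) :=
      mul_le_mul_of_nonneg_left h2 h6
    push_cast
    linarith

end

end Pool.Agent.Helper7.CP
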