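import Pool.Agent.Helper7.CP.Fibre

/-!
If the largest fibration has finite fibres then the divisor is big.
-/

set_option autoImplicit false
set_option linter.unusedSectionVars false
set_option linter.overlappingInstances false

open FF Module Pool.Agent.W602.GT Pool.Agent.Y172 Pool.Agent.R887 Pool.Agent.N110
open Pool.Agent.NH31

namespace Pool.Agent.Helper7.CP

section

variable {K : Type} [Field K] [Algebra ℂ K] {N n : ℕ} {y : Fin (N + 1) → K}

theorem Base.top {D P0 : Place ℂ K → ℚ} {m : ℕ} {F : IntermediateField ℂ K} {u : Fin n → K}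
    (hn : Algebra.trdeg ℂ K = n) (h : Base y D n F P0 m u) (x : K) : x ∈ F := by
  rw [h.fld, mem_acl]
  by_contra hx
  have := card_le hn (indep_snoc h.ind hx)
  omega

/-- a product of powers: from sections of `m1 D - l P0`, `l ≥ 1` -/
theorem kappa_of_surplus {D P0 : Place ℂ K → ℚ} {t m : ℕ} {F : IntermediateField ℂ K}
    {u : Fin t → K} (h : Base y D t F P0 m u) {m1 l : ℕ} (hm1 : 1 ≤ m1) (hl : 1 ≤ l) {f : K}
    (hf0 : f ≠ 0) (hf : ∀ P, IsPrimeDivisor y P → l * P0 P ≤ m1 * D P + (P.ord f : ℚ)) :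
    IitakaGe y D t := by
  refine ⟨m * m1, Nat.mul_pos h.pos hm1, Fin.cons (f ^ m) (fun i => f ^ m * u i), fun i => ?_,
    ?_, ?_⟩
  · refine fn_isFunctionSection ?_
    have key : ∀ g, Fn y (m • P0) g → Fn y ((m * m1) • D) (f ^ m * g) := by
      intro g hg P hP
      by_cases hg0 : g = 0
      · left
        rw [hg0, mul_zero]
      · right
        have h1 := (hg P hP).resolve_left hg0
        have h2 := mul_le_mul_of_nonneg_left (hf P hP) (show (0 : ℚ) ≤ m from Nat.cast_nonneg _)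
        have h3 : (1 : ℚ) ≤ l := by exact_mod_cast hl
        have h4 : (m : ℚ) * P0 P ≤ m * (l * P0 P) := by
          have h5 : 0 ≤ (m : ℚ) * P0 P := mul_nonneg (Nat.cast_nonneg _) (h.eff.1 P hP)
          nlinarith
        rw [smul_ap] at h1 ⊢
        rw [P.ord_mul (pow_ne_zero _ hf0) hg0, P.ord_pow]
        push_cast
        linarith
    refine Fin.cases ?_ (fun i => ?_) i
    · rw [Fin.cons_zero]
      have := key 1 (h.one m)
      rwa [mul_one] at this
    · rw [Fin.cons_succ]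
      exact key _ (h.sec i)
  · rw [Fin.cons_zero]
    exact pow_ne_zero _ hf0
  · have e1 : (fun i : Fin t => (Fin.cons (f ^ m) (fun i => f ^ m * u i) : Fin (t + 1) → K) i.succ /
        (Fin.cons (f ^ m) (fun i => f ^ m * u i) : Fin (t + 1) → K) 0) = u := by
      funext i
      rw [Fin.cons_succ, Fin.cons_zero, mul_div_cancel_left₀ _ (pow_ne_zero _ hf0)]
    rw [e1]
    exact h.ind

/-- **Finite fibres.** -/
theorem big_of_top (hn : Algebra.trdeg ℂ K = n) {D P0 : Place ℂ K → ℚ} {m : ℕ}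
    {F : IntermediateField ℂ K} {u : Fin n → K} (h : Base y D n F P0 m u) : IitakaGe y D n := by
  obtain ⟨H, hH, hps⟩ := h.psd
  have hhor : ∀ P, ¬ Horizontal F P := by
    intro P hP
    obtain ⟨s, hs0, hs⟩ := P.surj
    have := hP s (h.top hn s) hs0
    omega
  obtain ⟨k, τ, hτ0, hτ⟩ := h.van hH.2 (fun P _ h1 => absurd h1 (hhor P))
  obtain ⟨m1, b, hm1, hb, f, hf0, hf⟩ := hps (1 / (k + 1)) (by positivity)
  have hbk : k * b + 1 ≤ m1 := by
    have h1 : (b : ℝ) * (k + 1) ≤ m1 := by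
      have h2 : (0 : ℝ) < k + 1 := by positivity
      calc (b : ℝ) * (k + 1) ≤ (1 / (k + 1) * m1) * (k + 1) :=
            mul_le_mul_of_nonneg_right hb h2.le
        _ = m1 := by field_simp
    have h3 : b * (k + 1) ≤ m1 := by exact_mod_cast h1
    rcases Nat.eq_zero_or_pos b with rfl | hb0
    · omega
    · nlinarith
  obtain ⟨l, hl⟩ : ∃ l, m1 = k * b + 1 + l := ⟨m1 - (k * b + 1), by omega⟩
  refine kappa_of_surplus h (m1 := m1) (l := 1 + l) (f := f * τ ^ b) hm1 (by omega)
    (mul_ne_zero hf0 (pow_ne_zero _ hτ0)) fun P hP => ?_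
  have h1 := (hf P hP).resolve_left hf0
  simp only [Pi.add_apply, Pi.sub_apply, smul_ap] at h1
  have h2 := mul_le_mul_of_nonneg_left (hτ P hP) (show (0 : ℚ) ≤ b from Nat.cast_nonneg _)
  rw [P.ord_mul hf0 (pow_ne_zero _ hτ0), P.ord_pow]
  have h3 : (m1 : ℚ) = k * b + 1 + l := by
    rw [hl]
    push_cast
    ring
  push_cast
  rw [h3] at h1 ⊢
  linarith

end

end Pool.Agent.Helper7.CP
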